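import Pool.Agent.H44.KR.Targets

/-!
# Blocks of successive shapes with disjoint determining entries have different values
-/

set_option autoImplicit false
set_option linter.unusedVariables false

namespace Pool.Agent.H62.KR

open Pool.Agent.H68.BP Pool.Agent.H58.SF Pool.Agent.H53.NR Pool.Agent.H53.GM Pool.Agent.H44.KR
open Pool.Agent.H57.LCI (LocalCompletions Pre Realizes)
open Pool.Agent.H57.AR (tp ty)
open Pool.Agent.H57.EQ (Cx)
open Function
open Classical

theorem ent_refl (r : Fin 3) (j : ℕ) (c : Fin 6) : Ent r j c c := Or.inl rfl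

theorem ent_symm {r : Fin 3} {j : ℕ} {c c' : Fin 6} (h : Ent r j c c') : Ent r j c' c := by
  rcases h with h | ⟨h1, h2⟩
  · exact Or.inl h.symm
  · exact Or.inr ⟨h1.symm, by rwa [← h1]⟩

theorem ent_trans {r : Fin 3} {j : ℕ} {c c' c'' : Fin 6} (h : Ent r j c c')
    (h' : Ent r j c' c'') : Ent r j c c'' := by
  rcases h with h | ⟨h1, h2⟩
  · rwa [h]
  · rcases h' with h' | ⟨h3, h4⟩
    · rw [← h']
      exact Or.inr ⟨h1, h2⟩
    · exact Or.inr ⟨h1.trans h3, h2⟩

/-- a new vertex in a configuration -/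
theorem cfg_new {V W W' : Type} {L : ℕ} {r : Fin 3} {b : W → Fin 6 → Pl L × V}
    {b' : W' → Fin 6 → Pl L × V} {rk rk' : Pl L × V → ℕ} (n : Pl L × V) (hb : Cfg r b rk)
    (hpos : ∀ w c, At r c (b' w c).1) (hadj : ∀ w w' c, Adj (reg (b' w c).1) (reg (b' w' c).1))
    (hv : ∀ w c, (∃ w0 c0, b' w c = b w0 c0) ∨ b' w c = n)
    (hn : ∀ w0 c0, (b w0 c0).2 ≠ n.2)
    (h1 : ∀ w0 c0 w1 c1, rk' (b w0 c0) = rk' (b w1 c1) → rk (b w0 c0) = rk (b w1 c1))
    (h2 : ∀ w0 c0, rk' (b w0 c0) ≠ rk' n) : Cfg r b' rk' := by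
  refine ⟨hpos, hadj, ?_, ?_⟩
  · intro Z w w' c c' hZ hZ' he
    rcases hv w c with ⟨w0, c0, hw⟩ | hw <;> rcases hv w' c' with ⟨w1, c1, hw'⟩ | hw'
    · rw [hw, hw'] at he ⊢
      rw [hw] at hZ
      rw [hw'] at hZ'
      exact hb.inj Z w0 w1 c0 c1 hZ hZ' he
    · rw [hw, hw'] at he
      exact absurd he (hn _ _)
    · rw [hw, hw'] at he
      exact absurd he.symm (hn _ _)
    · rw [hw, hw']
  · rintro ⟨w, c⟩ ⟨w', c'⟩ he
    change rk' (b' w c) = rk' (b' w' c') at he
    change b' w c = b' w' c'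
    rcases hv w c with ⟨w0, c0, hw⟩ | hw <;> rcases hv w' c' with ⟨w1, c1, hw'⟩ | hw'
    · rw [hw, hw'] at he ⊢
      exact hb.rk (w0, c0) (w1, c1) (h1 _ _ _ _ he)
    · rw [hw, hw'] at he
      exact absurd he (h2 _ _)
    · rw [hw, hw'] at he
      exact absurd he.symm (h2 _ _)
    · rw [hw, hw']

theorem cfg_sub {V W W' : Type} {L : ℕ} {r : Fin 3} {b : W → Fin 6 → Pl L × V}
    {rk : Pl L × V → ℕ} (hb : Cfg r b rk) (f : W' → W) : Cfg r (fun w => b (f w)) rk :=
  ⟨fun w c => hb.pos _ c, fun w w' c => hb.adj _ _ c,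
    fun Z w w' c c' hZ hZ' he => hb.inj Z _ _ c c' hZ hZ' he,
    fun q q' he => hb.rk (f q.1, q.2) (f q'.1, q'.2) he⟩

/-- ranks with the same order give the same kinds -/
theorem kv_rk {V : Type} {ρ : Sig} {L : ℕ} (𝔹 : Str ρ V) {J : Type} (a : J → Pl L × V)
    (rk rk' : Pl L × V → ℕ) (h : ∀ i i', rk (a i) < rk (a i') ↔ rk' (a i) < rk' (a i')) :
    kv 𝔹 rk a = kv 𝔹 rk' a := by
  unfold kv H44.KR.kd
  simp only [h]

section main

variable {V : Type} {σ ρ : Sig} {𝔸 : Str σ V} {𝔹 : Str ρ V} {L : ℕ} {Φ : Kd ρ L JJ → Yc ρ}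
  {r : Fin 3} {j : ℕ}

theorem blk_congr (hP : Plf L r j) {x : Fin 6 → V} (hx : Sat r j x) {c c' : Fin 6}
    (h : Ent r j c c') : blk L r j x c = blk L r j x c' := by
  unfold blk
  rw [(hP.eq c c').2 h, hx c c' h]

/-- the family of the two blocks -/
def two (L : ℕ) (r : Fin 3) (j : ℕ) (x y : Fin 6 → V) (i : Fin 2) : Fin 6 → Pl L × V :=
  if i = 0 then blk L r j x else blk L r (j + 1) y

/-- second step: the vertex `e` is moved -/
theorem step2 (hB : HB 𝔹) (hC : Can 𝔸 𝔹 L Φ) (hP : Plf L r j) (hP' : Plf L r (j + 1))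
    (hS : Pls L r j) (s : Fin ρ.m → Prop) (e : Fin 6) (hJ : IsJ 𝔹 Φ r j s {c | Ent r j e c})
    (x y : Fin 6 → V) (rk : Pl L × V → ℕ) (hx : BlS 𝔹 r j s x) (hy : BlS 𝔹 r (j + 1) s y)
    (hcf : Cfg r (two L r j x y) rk)
    (hne : ∀ c, blk L r j x e ≠ blk L r (j + 1) y c) :
    ¬ (Fv 𝔹 Φ rk (blk L r j x) (blk L r (j + 1) y)).1 := by
  intro hF
  have hxy : x e ≠ y e := by
    intro h
    obtain ⟨Z, hZ, hZ'⟩ := hS.cm e
    have h1 := hcf.inj Z 0 1 e e hZ hZ' h
    exact hne e (Prod.ext h1 h)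
  -- the new element
  obtain ⟨x', hx'1, hx'2, hx'3⟩ := hB.amg (Fin 2) {1} ![x e, y e] ![x e, y e]
    (Finset.univ.image x ∪ Finset.univ.image y) ⟨fun _ _ _ _ => Iff.rfl, fun _ _ _ => Iff.rfl⟩
  have hx'y : x' 1 = y e := hx'2 1 rfl
  have htp : ∀ (l : Fin ρ.m) (z : Fin (ρ.ar l) → Fin 2),
      𝔹 l (fun i => x' (z i)) ↔ 𝔹 l (fun i => (![x e, y e] : Fin 2 → V) (z i)) := by
    intro l z
    have h := congrFun (congrFun (congrArg Prod.snd hx'1) l) z
    exact iff_of_eq h
  have ha : x' 0 ≠ x' 1 := by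
    intro h
    have h2 : (x' 0 = x' 1) = (x e = y e) := congrFun (congrFun (congrArg Prod.fst hx'1) 0) 1
    exact hxy (h2 ▸ h)
  have haF : x' 0 ∉ Finset.univ.image x ∪ Finset.univ.image y := by
    intro h
    obtain ⟨w, hw, hw'⟩ := hx'3 0 h
    rw [Set.mem_singleton_iff] at hw
    rw [hw] at hw'
    exact ha hw'
  have hax : ∀ c, x c ≠ x' 0 := fun c h =>
    haF (Finset.mem_union_left _ (Finset.mem_image.2 ⟨c, Finset.mem_univ c, h⟩))
  have hay : ∀ c, y c ≠ x' 0 := fun c h =>
    haF (Finset.mem_union_right _ (Finset.mem_image.2 ⟨c, Finset.mem_univ c, h⟩))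
  set a := x' 0 with ha_def
  have hty : ty 𝔹 a = s := by
    rw [← hx.2 e]
    funext l
    exact propext (htp l (fun _ => 0))
  -- the new block
  set x₂ : Fin 6 → V := fun c => if Ent r j e c then a else x c with hx₂
  have hSat : Sat r j x₂ := by
    intro c c' h
    simp only [hx₂]
    by_cases hc : Ent r j e c
    · rw [if_pos hc, if_pos (ent_trans hc h)]
    · rw [if_neg hc, if_neg fun h' => hc (ent_trans h' (ent_symm h))]
      exact hx.1 c c' h
  have hBl : BlS 𝔹 r j s x₂ := by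
    refine ⟨hSat, fun c => ?_⟩
    simp only [hx₂]
    split_ifs
    · exact hty
    · exact hx.2 c
  set b0 := blk L r j x with hb0
  set b1 := blk L r (j + 1) y with hb1
  set b2 := blk L r j x₂ with hb2
  set n : Pl L × V := (plc L r j e, a) with hn
  have hnb0 : ∀ c, b0 c ≠ n := fun c h => hax c (congrArg Prod.snd h)
  have hnb1 : ∀ c, b1 c ≠ n := fun c h => hay c (congrArg Prod.snd h)
  set rk₂ : Pl L × V → ℕ := fun p => if p = n then 2 * rk (b0 e) + 1 else 2 * rk p with hrk₂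
  have hr0 : ∀ c, rk₂ (b0 c) = 2 * rk (b0 c) := fun c => if_neg (hnb0 c)
  have hr1 : ∀ c, rk₂ (b1 c) = 2 * rk (b1 c) := fun c => if_neg (hnb1 c)
  have hrn : rk₂ n = 2 * rk (b0 e) + 1 := if_pos rfl
  -- the move of vertices
  set τ : Pl L × V → Pl L × V := fun p => if p = b0 e then n else p with hτ
  have hτ0 : ∀ c, b2 c = τ (b0 c) := by
    intro c
    by_cases hc : Ent r j e c
    · have h1 : b0 c = b0 e := (blk_congr hP hx.1 hc).symm
      rw [h1]
      simp only [hτ, if_true]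
      change (plc L r j c, x₂ c) = (plc L r j e, a)
      rw [(hP.eq e c).2 hc]
      simp only [hx₂, if_pos hc]
    · have h1 : b0 c ≠ b0 e := by
        intro h
        exact hc ((hP.eq e c).1 (congrArg Prod.fst h).symm)
      simp only [hτ, if_neg h1]
      change (plc L r j c, x₂ c) = (plc L r j c, x c)
      simp only [hx₂, if_neg hc]
  have hτ1 : ∀ c, b1 c = τ (b1 c) := by
    intro c
    simp only [hτ, if_neg (hne c).symm]
  have hτv : Sum.elim b2 b1 = fun i => τ ((Sum.elim b0 b1 : JJ → Pl L × V) i) := by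
    funext i
    rcases i with c | c
    · exact hτ0 c
    · exact hτ1 c
  have hτp : ∀ p, (τ p).1 = p.1 := by
    intro p
    simp only [hτ]
    split_ifs with h
    · rw [h]
      rfl
    · rfl
  -- old vertices
  have hold : ∀ i : JJ, (Sum.elim b0 b1 : JJ → Pl L × V) i ≠ n := by
    rintro (c | c)
    · exact hnb0 c
    · exact hnb1 c
  have hoi : RkI rk (Sum.elim b0 b1) := by
    rintro (c | c) (c' | c') h
    · exact hcf.rk (0, c) (0, c') h
    · exact hcf.rk (0, c) (1, c') h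
    · exact hcf.rk (1, c) (0, c') h
    · exact hcf.rk (1, c) (1, c') h
  have hro : ∀ i : JJ, rk₂ ((Sum.elim b0 b1 : JJ → Pl L × V) i) =
      2 * rk ((Sum.elim b0 b1 : JJ → Pl L × V) i) := fun i => if_neg (hold i)
  have hkv0 : kv 𝔹 rk₂ (Sum.elim b0 b1) = kv 𝔹 rk (Sum.elim b0 b1) := by
    apply kv_rk
    intro i i'
    rw [hro, hro]
    omega
  have hτi : ∀ i i' : JJ, τ ((Sum.elim b0 b1 : JJ → Pl L × V) i) =
      τ ((Sum.elim b0 b1 : JJ → Pl L × V) i') ↔ (Sum.elim b0 b1 : JJ → Pl L × V) i =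
      (Sum.elim b0 b1 : JJ → Pl L × V) i' := by
    intro i i'
    refine ⟨fun h => ?_, fun h => by rw [h]⟩
    simp only [hτ] at h
    split_ifs at h with h1 h2 h2
    · rw [h1, h2]
    · exact absurd h.symm (hold i')
    · exact absurd h (hold i)
    · exact h
  have hτr : ∀ i i' : JJ, rk₂ (τ ((Sum.elim b0 b1 : JJ → Pl L × V) i)) <
      rk₂ (τ ((Sum.elim b0 b1 : JJ → Pl L × V) i')) ↔
      rk ((Sum.elim b0 b1 : JJ → Pl L × V) i) < rk ((Sum.elim b0 b1 : JJ → Pl L × V) i') := by
    intro i i'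
    simp only [hτ]
    split_ifs with h1 h2 h2
    · rw [h1, h2]
      simp
    · rw [hrn, hro, h1]
      omega
    · rw [hrn, hro, h2]
      have h3 : rk ((Sum.elim b0 b1 : JJ → Pl L × V) i) ≠ rk (b0 e) := by
        intro h
        exact h1 (hoi i (Sum.inl e) h)
      omega
    · rw [hro, hro]
      omega
  have hkv2 : kv 𝔹 rk₂ (Sum.elim b2 b1) = kv 𝔹 rk (Sum.elim b0 b1) := by
    rw [hτv]
    unfold kv H44.KR.kd
    refine Prod.ext ?_ (Prod.ext ?_ (Prod.ext ?_ ?_))
    · funext i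
      exact hτp _
    · funext i i'
      exact propext (hτi i i')
    · funext i i'
      apply propext
      change ((τ _).1 = (τ _).1 ∧ _ < _) ↔ _
      rw [hτp, hτp, hτr]
    · funext l z
      apply propext
      change ((∃ Z, ∀ i, inSh Z (τ _).1) ∧ _) ↔ _
      simp only [hτp]
      refine and_congr_right ?_
      rintro ⟨Z, hZ⟩
      by_cases hex : ∃ i₀, (Sum.elim b0 b1 : JJ → Pl L × V) (z i₀) = b0 e
      · obtain ⟨i₀, hi₀⟩ := hex
        have hZe : inSh Z (plc L r j e) := by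
          have h := hZ i₀
          rw [hi₀] at h
          exact h
        have h1 : ∀ i, ∃ w : Fin 2, ((Sum.elim b0 b1 : JJ → Pl L × V) (z i)).2 =
            (![x e, y e] : Fin 2 → V) w ∧ (τ ((Sum.elim b0 b1 : JJ → Pl L × V) (z i))).2 =
            x' w := by
          intro i
          have hZi := hZ i
          rcases hzi : z i with c | c
          · rw [hzi] at hZi
            have hc : Ent r j e c := hP.sh Z e c hZe hZi
            have h1 : b0 c = b0 e := (blk_congr hP hx.1 hc).symm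
            refine ⟨0, ?_, ?_⟩
            · change (b0 c).2 = x e
              rw [h1]
              rfl
            · change (τ (b0 c)).2 = a
              rw [h1]
              simp only [hτ, if_true]
              rfl
          · rw [hzi] at hZi
            have hc : Ent r (j + 1) e c := hS.sh Z e c hZe hZi
            have h1 : b1 c = b1 e := (blk_congr hP' hy.1 hc).symm
            refine ⟨1, ?_, ?_⟩
            · change (b1 c).2 = y e
              rw [h1]
              rfl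
            · change (τ (b1 c)).2 = x' 1
              rw [← hτ1, h1, hx'y]
              rfl
        choose w hw1 hw2 using h1
        have h2 : (fun i => ((Sum.elim b0 b1 : JJ → Pl L × V) (z i)).2) =
            fun i => (![x e, y e] : Fin 2 → V) (w i) := funext hw1
        have h3 : (fun i => (τ ((Sum.elim b0 b1 : JJ → Pl L × V) (z i))).2) =
            fun i => x' (w i) := funext hw2
        change 𝔹 l (fun i => (τ _).2) ↔ 𝔹 l (fun i => ((Sum.elim b0 b1 : JJ → Pl L × V) (z i)).2)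
        rw [h2, h3]
        exact htp l w
      · have h1 : ∀ i, τ ((Sum.elim b0 b1 : JJ → Pl L × V) (z i)) =
            (Sum.elim b0 b1 : JJ → Pl L × V) (z i) := by
          intro i
          simp only [hτ]
          rw [if_neg fun h => hex ⟨i, h⟩]
        simp only [h1]
  -- the configuration of three blocks
  have hcf3 : Cfg r (![b0, b2, b1] : Fin 3 → Fin 6 → Pl L × V) rk₂ := by
    refine cfg_new (b := two L r j x y) (rk := rk) n hcf ?_ ?_ ?_ ?_ ?_ ?_
    · intro w c
      fin_cases w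
      · exact hP.at_ c
      · exact hP.at_ c
      · exact hP'.at_ c
    · intro w w' c
      fin_cases w <;> fin_cases w'
      · exact hP.adj c c
      · exact hP.adj c c
      · exact hS.adj c c
      · exact hP.adj c c
      · exact hP.adj c c
      · exact hS.adj c c
      · exact hS.adj' c c
      · exact hS.adj' c c
      · exact hP'.adj c c
    · intro w c
      fin_cases w
      · exact Or.inl ⟨0, c, rfl⟩
      · change (∃ w0 c0, b2 c = _) ∨ b2 c = n
        rw [hτ0 c]
        simp only [hτ]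
        split_ifs with h
        · exact Or.inr rfl
        · exact Or.inl ⟨0, c, rfl⟩
      · exact Or.inl ⟨1, c, rfl⟩
    · intro w0 c0
      fin_cases w0
      · exact hax c0
      · exact hay c0
    · intro w0 c0 w1 c1 h
      have h0 : ∀ (w : Fin 2) (c : Fin 6), rk₂ (two L r j x y w c) =
          2 * rk (two L r j x y w c) := by
        intro w c
        fin_cases w
        · exact hr0 c
        · exact hr1 c
      rw [h0, h0] at h
      omega
    · intro w0 c0 h
      have h0 : rk₂ (two L r j x y w0 c0) = 2 * rk (two L r j x y w0 c0) := by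
        fin_cases w0
        · exact hr0 c0
        · exact hr1 c0
      rw [h0, hrn] at h
      omega
  obtain ⟨ψ, -, hψ⟩ := hC.out r (Fin 3) _ rk₂ hcf3
  have h02 : ψ 0 = ψ 2 := by
    have h1 := hψ 0 2 (by
      rintro (c | c) (c' | c')
      · exact hP.adj c c'
      · exact hS.adj c c'
      · exact hS.adj' c c'
      · exact hP'.adj c c')
    have h2 : (col2 𝔹 (ψ 0) (ψ 2)).1 = (Fv 𝔹 Φ rk b0 b1).1 := by
      rw [h1]
      change (Φ (kv 𝔹 rk₂ (Sum.elim b0 b1))).1 = _
      rw [hkv0]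
      rfl
    exact h2.mpr hF
  have h12 : ψ 1 = ψ 2 := by
    have h1 := hψ 1 2 (by
      rintro (c | c) (c' | c')
      · exact hP.adj c c'
      · exact hS.adj c c'
      · exact hS.adj' c c'
      · exact hP'.adj c c')
    have h2 : (col2 𝔹 (ψ 1) (ψ 2)).1 = (Fv 𝔹 Φ rk b0 b1).1 := by
      rw [h1]
      change (Φ (kv 𝔹 rk₂ (Sum.elim b2 b1))).1 = _
      rw [hkv2]
      rfl
    exact h2.mpr hF
  have h01 : (Fv 𝔹 Φ rk₂ b0 b2).1 := by
    have h1 := hψ 0 1 (by
      rintro (c | c) (c' | c')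
      · exact hP.adj c c'
      · exact hP.adj c c'
      · exact hP.adj c c'
      · exact hP.adj c c')
    have h2 : (col2 𝔹 (ψ 0) (ψ 1)).1 = (Fv 𝔹 Φ rk₂ b0 b2).1 := by
      rw [h1]
      rfl
    rw [← h2]
    exact h02.trans h12.symm
  have hrki : RkI rk₂ (Sum.elim b0 b2) := by
    rintro (c | c) (c' | c') h
    · exact hcf3.rk (0, c) (0, c') h
    · exact hcf3.rk (0, c) (1, c') h
    · exact hcf3.rk (1, c) (0, c') h
    · exact hcf3.rk (1, c) (1, c') h
  have h3 := (hJ.2 x x₂ rk₂ hx hBl hrki).1 h01 e (ent_refl r j e)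
  simp only [hx₂, if_pos (ent_refl r j e)] at h3
  exact hax e h3

theorem pf_MIX : T_MIX := by
  intro V σ ρ 𝔸 𝔹 L Φ hB hC r j hP hP' hS s e e' hJ hJ' hd x y rk hx hy hcf
  by_cases hne : ∀ c, blk L r j x e ≠ blk L r (j + 1) y c
  · exact step2 hB hC hP hP' hS s e hJ x y rk hx hy hcf hne
  push Not at hne
  obtain ⟨c₀, hc₀⟩ := hne
  intro hF
  have hee' : ¬ Ent r (j + 1) e' e := hd e (ent_refl r j e)
  -- the new element
  obtain ⟨x', hx'1, -, hx'3⟩ := hB.amg Unit ∅ (fun _ => x e) (fun _ => x e)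
    (Finset.univ.image x ∪ Finset.univ.image y) ⟨fun _ _ _ _ => Iff.rfl, fun _ _ _ => Iff.rfl⟩
  set z := x' () with hz
  have hzF : z ∉ Finset.univ.image x ∪ Finset.univ.image y := by
    intro h
    obtain ⟨w, hw, -⟩ := hx'3 () h
    exact hw
  have hzx : ∀ c, x c ≠ z := fun c h =>
    hzF (Finset.mem_union_left _ (Finset.mem_image.2 ⟨c, Finset.mem_univ c, h⟩))
  have hzy : ∀ c, y c ≠ z := fun c h =>
    hzF (Finset.mem_union_right _ (Finset.mem_image.2 ⟨c, Finset.mem_univ c, h⟩))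
  have hty : ty 𝔹 z = s := by
    rw [← hx.2 e]
    funext l
    exact congrFun (congrFun (congrArg Prod.snd hx'1) l) (fun _ => ())
  set y₁ : Fin 6 → V := fun c => if Ent r (j + 1) e c then z else y c with hy₁
  have hSat : Sat r (j + 1) y₁ := by
    intro c c' h
    simp only [hy₁]
    by_cases hc : Ent r (j + 1) e c
    · rw [if_pos hc, if_pos (ent_trans hc h)]
    · rw [if_neg hc, if_neg fun h' => hc (ent_trans h' (ent_symm h))]
      exact hy.1 c c' h
  have hBl : BlS 𝔹 r (j + 1) s y₁ := by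
    refine ⟨hSat, fun c => ?_⟩
    simp only [hy₁]
    split_ifs
    · exact hty
    · exact hy.2 c
  set b0 := blk L r j x with hb0
  set b1 := blk L r (j + 1) y with hb1
  set b2 := blk L r (j + 1) y₁ with hb2
  set n : Pl L × V := (plc L r (j + 1) e, z) with hn
  have hnb0 : ∀ c, b0 c ≠ n := fun c h => hzx c (congrArg Prod.snd h)
  have hnb1 : ∀ c, b1 c ≠ n := fun c h => hzy c (congrArg Prod.snd h)
  set rk₂ : Pl L × V → ℕ := fun p => if p = n then 0 else rk p + 1 with hrk₂
  have hr0 : ∀ c, rk₂ (b0 c) = rk (b0 c) + 1 := fun c => if_neg (hnb0 c)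
  have hr1 : ∀ c, rk₂ (b1 c) = rk (b1 c) + 1 := fun c => if_neg (hnb1 c)
  have hrn : rk₂ n = 0 := if_pos rfl
  have hb2c : ∀ c, b2 c = n ∨ b2 c = b1 c := by
    intro c
    by_cases hc : Ent r (j + 1) e c
    · left
      change (plc L r (j + 1) c, y₁ c) = (plc L r (j + 1) e, z)
      rw [(hP'.eq e c).2 hc]
      simp only [hy₁, if_pos hc]
    · right
      change (plc L r (j + 1) c, y₁ c) = (plc L r (j + 1) c, y c)
      simp only [hy₁, if_neg hc]
  have hold : ∀ i : JJ, (Sum.elim b0 b1 : JJ → Pl L × V) i ≠ n := by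
    rintro (c | c)
    · exact hnb0 c
    · exact hnb1 c
  have hro : ∀ i : JJ, rk₂ ((Sum.elim b0 b1 : JJ → Pl L × V) i) =
      rk ((Sum.elim b0 b1 : JJ → Pl L × V) i) + 1 := fun i => if_neg (hold i)
  have hkv0 : kv 𝔹 rk₂ (Sum.elim b0 b1) = kv 𝔹 rk (Sum.elim b0 b1) := by
    apply kv_rk
    intro i i'
    rw [hro, hro]
    omega
  have hcf3 : Cfg r (![b0, b1, b2] : Fin 3 → Fin 6 → Pl L × V) rk₂ := by
    refine cfg_new (b := two L r j x y) (rk := rk) n hcf ?_ ?_ ?_ ?_ ?_ ?_
    · intro w c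
      fin_cases w
      · exact hP.at_ c
      · exact hP'.at_ c
      · exact hP'.at_ c
    · intro w w' c
      fin_cases w <;> fin_cases w'
      · exact hP.adj c c
      · exact hS.adj c c
      · exact hS.adj c c
      · exact hS.adj' c c
      · exact hP'.adj c c
      · exact hP'.adj c c
      · exact hS.adj' c c
      · exact hP'.adj c c
      · exact hP'.adj c c
    · intro w c
      fin_cases w
      · exact Or.inl ⟨0, c, rfl⟩
      · exact Or.inl ⟨1, c, rfl⟩
      · rcases hb2c c with h | h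
        · exact Or.inr h
        · exact Or.inl ⟨1, c, h⟩
    · intro w0 c0
      fin_cases w0
      · exact hzx c0
      · exact hzy c0
    · intro w0 c0 w1 c1 h
      have h0 : ∀ (w : Fin 2) (c : Fin 6), rk₂ (two L r j x y w c) =
          rk (two L r j x y w c) + 1 := by
        intro w c
        fin_cases w
        · exact hr0 c
        · exact hr1 c
      rw [h0, h0] at h
      omega
    · intro w0 c0 h
      have h0 : rk₂ (two L r j x y w0 c0) = rk (two L r j x y w0 c0) + 1 := by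
        fin_cases w0
        · exact hr0 c0
        · exact hr1 c0
      rw [h0, hrn] at h
      omega
  obtain ⟨ψ, -, hψ⟩ := hC.out r (Fin 3) _ rk₂ hcf3
  have h01 : ψ 0 = ψ 1 := by
    have h1 := hψ 0 1 (by
      rintro (c | c) (c' | c')
      · exact hP.adj c c'
      · exact hS.adj c c'
      · exact hS.adj' c c'
      · exact hP'.adj c c')
    have h2 : (col2 𝔹 (ψ 0) (ψ 1)).1 = (Fv 𝔹 Φ rk b0 b1).1 := by
      rw [h1]
      change (Φ (kv 𝔹 rk₂ (Sum.elim b0 b1))).1 = _
      rw [hkv0]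
      rfl
    exact h2.mpr hF
  have h12 : ψ 1 = ψ 2 := by
    have h1 := hψ 1 2 (by
      rintro (c | c) (c' | c')
      · exact hP'.adj c c'
      · exact hP'.adj c c'
      · exact hP'.adj c c'
      · exact hP'.adj c c')
    have hrki : RkI rk₂ (Sum.elim b1 b2) := by
      rintro (c | c) (c' | c') h
      · exact hcf3.rk (1, c) (1, c') h
      · exact hcf3.rk (1, c) (2, c') h
      · exact hcf3.rk (2, c) (1, c') h
      · exact hcf3.rk (2, c) (2, c') h
    have h3 : (Fv 𝔹 Φ rk₂ b1 b2).1 := by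
      refine (hJ'.2 y y₁ rk₂ hy hBl hrki).2 ?_
      intro c hc
      have hc2 : ¬ Ent r (j + 1) e c := fun h => hee' (ent_trans hc (ent_symm h))
      simp only [hy₁, if_neg hc2]
    have h2 : (col2 𝔹 (ψ 1) (ψ 2)).1 = (Fv 𝔹 Φ rk₂ b1 b2).1 := by
      rw [h1]
      rfl
    exact h2.mpr h3
  have h02 : (Fv 𝔹 Φ rk₂ b0 b2).1 := by
    have h1 := hψ 0 2 (by
      rintro (c | c) (c' | c')
      · exact hP.adj c c'
      · exact hS.adj c c'
      · exact hS.adj' c c'
      · exact hP'.adj c c')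
    have h2 : (col2 𝔹 (ψ 0) (ψ 2)).1 = (Fv 𝔹 Φ rk₂ b0 b2).1 := by
      rw [h1]
      rfl
    rw [← h2]
    exact h01.trans h12
  have hcf2 : Cfg r (two L r j x y₁) rk₂ := by
    have h := cfg_sub hcf3 (fun i : Fin 2 => if i = 0 then 0 else 2)
    have h4 : (fun i : Fin 2 => (![b0, b1, b2] : Fin 3 → Fin 6 → Pl L × V)
        (if i = 0 then 0 else 2)) = two L r j x y₁ := by
      funext i
      fin_cases i
      · rfl
      · rfl
    rwa [h4] at h
  refine step2 hB hC hP hP' hS s e hJ x y₁ rk₂ hx hBl hcf2 ?_ h02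
  intro c h
  have h5 := ((hS.eq e c).1 (congrArg Prod.fst h)).1
  have h6 : x e = y₁ c := congrArg Prod.snd h
  simp only [hy₁, if_pos h5] at h6
  exact hzx e h6

end main

end Pool.Agent.H62.KR
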